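import Pool.Agent.E8helper90.ND.Cf

/-!
# Entire curves given by iterated linear differential equations with small coefficients

A meromorphic function `a` is small with respect to the entire curve `f` if, for every `ε > 0`, its
Nevanlinna characteristic is at most `ε T(r) + O(log r)` outside a set of finite measure, where `T`
is the order function of `f`. For instance the rational functions are small, and so are the entire
functions `g_k` and their derivatives if `f = (1 : exp g_1 : … : exp g_N)`. We prove that the
conjecture of Green, Griffiths and Lang holds for the entire curves which are given by linear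
differential equations whose coefficients are small functions of the curve, or solutions of linear
equations with such coefficients, and so on.
-/

set_option autoImplicit false

namespace Pool.Agent.E8helper90.Old.SmallCoefficients

open Filter MvPolynomial
open scoped LinearAlgebra.Projectivization
open Pool.Agent.TH143.EL (HolMap InV)
open Pool.Agent.TH143.HE (RatCurvesIn)
open Pool.Agent.TH143.GT (Covered FunField Pluricanonical)
open Pool.Agent.W602.GT (IsForm GeneralType)
open Pool.Agent.Y377.IL (IteratedOver not_gt)
open Pool.Agent.E8helper90.ND

variable {N : ℕ}

/-- all forms that vanish on the curve `f` belong to the ideal `p` -/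
def ZariskiDense (p : Ideal (MvPolynomial (Fin (N + 1)) ℂ)) (f : ℂ → ℙ ℂ (Fin (N + 1) → ℂ)) :
    Prop :=
  ∀ G : MvPolynomial (Fin (N + 1)) ℂ, IsForm G → (∀ z, eval (f z).rep G = 0) → G ∈ p

/-- Let `f` be an entire curve in the projective space of dimension `N`, given by iterated linear
differential equations over the ring of the small functions of `f`.

(1) Let `X` be a projective variety of positive dimension in which `f` is Zariski-dense, with the
ideal `p`, the function field `K`, the generic point `y` and the dimension `w`. Then `X` is covered by
rational curves and has no nonzero pluricanonical forms. In particular, `X` is not of general type.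

(2) Let `X` and `Z` be the projective algebraic sets of the homogeneous elements of `I` and `J` such
that all nonconstant rational curves in `X` lie in `Z`. If `f` lies in `X`, then `f` lies in `Z`, or
`f` is constant. -/
theorem result (f : ℂ → ℙ ℂ (Fin (N + 1) → ℂ)) (hf : HolMap f)
    (hs : IteratedOver (smallClass f).ring f) :
    (∀ (p : Ideal (MvPolynomial (Fin (N + 1)) ℂ)) (K : Type) [Field K] [Algebra ℂ K] (w : ℕ)
      (y : Fin (N + 1) → K), FunField p 1 K w y → 0 < w → (∀ z, InV p (f z)) →
      ZariskiDense p f → Covered K ∧ (∀ n : ℕ, 0 < n → ∀ ω : (Fin w → Derivation ℂ K K) → K,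
        Pluricanonical w n ω → ω = 0) ∧ ¬ GeneralType ℂ K w) ∧
    ∀ I J : Ideal (MvPolynomial (Fin (N + 1)) ℂ), RatCurvesIn (RingHom.id ℂ) I J →
      (∀ z, InV I (f z)) → (∀ z, InV J (f z)) ∨ ∀ z z', f z = f z' := by
  refine ⟨fun p K _ _ w y hy hw hX hd => ?_, fun I J hR hI => dich_small hR hf hI hs⟩
  obtain ⟨h1, h2⟩ := small_covered hy hf hX hd hw hs
  exact ⟨h1, h2, not_gt h2⟩

end Pool.Agent.E8helper90.Old.SmallCoefficients
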